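import Pool.Agent.KS6_42.FE.Defs

/-!
# The lower bound for the number of edges
-/

set_option autoImplicit false

namespace Pool.Agent.KS6_42.FE

open Finset

/-- The directed Caro–Wei bound (the proof is the one of an earlier library module). -/
theorem caroWei {α : Type} [DecidableEq α] (out : α → Finset α) (hirr : ∀ v, v ∉ out v)
    (X : Finset α) : ∃ A ⊆ X, (∀ B ⊆ A, B.Nonempty → ∃ v ∈ B, ∀ w ∈ B, w ∉ out v) ∧
      ∑ v ∈ X, 1 / (1 + ((out v ∩ X).card : ℚ)) ≤ A.card := by
  induction X using Finset.strongInduction with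
  | H X ih =>
  rcases X.eq_empty_or_nonempty with rfl | hne
  · exact ⟨∅, Subset.rfl, by simp, by simp⟩
  by_cases h0 : ∃ v ∈ X, out v ∩ X = ∅
  · obtain ⟨v, hv, h0⟩ := h0
    obtain ⟨A, hA, h1, h2⟩ := ih (X.erase v) (erase_ssubset hv)
    have hvA : v ∉ A := fun h => by simpa using hA h
    have hsub : insert v A ⊆ X := insert_subset hv (hA.trans (erase_subset _ _))
    refine ⟨insert v A, hsub, fun B hB hBn => ?_, ?_⟩
    · by_cases hvB : v ∈ B
      · refine ⟨v, hvB, fun w hw hw' => ?_⟩
        have : w ∈ out v ∩ X := mem_inter.2 ⟨hw', hsub (hB hw)⟩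
        simp [h0] at this
      · exact h1 B ((subset_insert_iff_of_notMem hvB).1 hB) hBn
    · rw [← add_sum_erase _ _ hv, h0, card_insert_of_notMem hvA]
      push_cast
      have : ∑ x ∈ X.erase v, 1 / (1 + ((out x ∩ X).card : ℚ)) ≤
          ∑ x ∈ X.erase v, 1 / (1 + ((out x ∩ X.erase v).card : ℚ)) := by
        refine sum_le_sum fun x _ => one_div_le_one_div_of_le (by positivity) ?_
        have := card_le_card (inter_subset_inter_left (s := out x) (erase_subset v X))
        exact_mod_cast Nat.add_le_add_left this 1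
      simp only [card_empty, Nat.cast_zero, add_zero, div_one]
      linarith
  · push Not at h0
    have key : ∑ v ∈ X, ∑ u ∈ X, 1 / (1 + ((out u ∩ X).card : ℚ)) ≤
        ∑ v ∈ X, ∑ u ∈ X.erase v, 1 / (1 + ((out u ∩ X.erase v).card : ℚ)) := by
      have e1 : ∀ v ∈ X, ∑ u ∈ X.erase v, 1 / (1 + ((out u ∩ X.erase v).card : ℚ)) =
          ∑ u ∈ X, if u = v then 0 else
            if v ∈ out u then 1 / ((out u ∩ X).card : ℚ) else 1 / (1 + ((out u ∩ X).card : ℚ)) := by
        intro v hv
        rw [← add_sum_erase _ _ hv, if_pos rfl, zero_add]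
        refine sum_congr rfl fun u hu => ?_
        rw [if_neg (ne_of_mem_erase hu), inter_erase]
        split_ifs with h
        · have h1 := card_erase_add_one (mem_inter.2 ⟨h, hv⟩)
          rw [← h1]
          push_cast
          rw [add_comm]
        · rw [erase_eq_of_notMem (fun h' => h (mem_inter.1 h').1)]
      rw [sum_congr rfl e1, sum_comm, sum_comm (s := X) (t := X) (f := fun v u => if u = v then 0 else _)]
      refine sum_le_sum fun u hu => le_of_eq ?_
      have hd : ((out u ∩ X).card : ℚ) ≠ 0 := by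
        exact_mod_cast (card_pos.2 (h0 u hu)).ne'
      have e2 : ∀ v ∈ X, (if u = v then (0 : ℚ) else
            if v ∈ out u then 1 / ((out u ∩ X).card : ℚ) else 1 / (1 + ((out u ∩ X).card : ℚ))) =
          1 / (1 + ((out u ∩ X).card : ℚ)) + (if v ∈ out u then
            1 / ((out u ∩ X).card : ℚ) - 1 / (1 + ((out u ∩ X).card : ℚ)) else 0) -
            if u = v then 1 / (1 + ((out u ∩ X).card : ℚ)) else 0 := by
        intro v _
        by_cases h1 : u = v
        · subst h1
          simp [hirr u]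
        · split_ifs <;> ring
      rw [sum_congr rfl e2, sum_sub_distrib, sum_add_distrib, sum_ite_eq, if_pos hu, ← sum_filter,
        filter_mem_eq_inter, inter_comm X, sum_const (s := out u ∩ X), nsmul_eq_mul]
      field_simp
      ring
    obtain ⟨v, hv, h1⟩ := exists_le_of_sum_le hne key
    obtain ⟨A, hA, h2, h3⟩ := ih (X.erase v) (erase_ssubset hv)
    exact ⟨A, hA.trans (erase_subset _ _), h2, h1.trans h3⟩

theorem chord (t d : ℕ) (hd : 1 ≤ d) :
    ((2 * t + 1 : ℚ) - d) ≤ (t * (t + 1)) * (1 / d) := by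
  have hd' : (0 : ℚ) < d := by exact_mod_cast hd
  rw [mul_one_div, le_div_iff₀ hd']
  rcases le_or_gt d t with h | h
  · have h1 : (d : ℚ) ≤ t := by exact_mod_cast h
    nlinarith
  · have h1 : (t : ℚ) + 1 ≤ d := by exact_mod_cast h
    nlinarith

end Pool.Agent.KS6_42.FE
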