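import Pool.Agent.KS6_42.FE.Main

/-!
# The balanced graphs attain the bound
-/

set_option autoImplicit false

namespace Pool.Agent.KS6_42.FE

open Finset

/-- The perfect matching given by a permutation. -/
def matchOf {n k : ℕ} (σ : Equiv.Perm (Fin n)) (h : ∀ a, (σ a : ℕ) % k = (a : ℕ) % k) :
    (balanced n k).Subgraph where
  verts := Set.univ
  Adj x y := (x.2 = false ∧ y.2 = true ∧ σ x.1 = y.1) ∨ (x.2 = true ∧ y.2 = false ∧ σ y.1 = x.1)
  adj_sub := by
    rintro x y (⟨h1, h2, h3⟩ | ⟨h1, h2, h3⟩)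
    · refine ⟨?_, by simp [h1, h2]⟩
      rw [← h3, h]
    · refine ⟨?_, by simp [h1, h2]⟩
      rw [← h3, h]
  edge_vert := fun _ => Set.mem_univ _
  symm := by
    refine ⟨?_⟩
    rintro x y (⟨h1, h2, h3⟩ | ⟨h1, h2, h3⟩)
    · exact Or.inr ⟨h2, h1, h3⟩
    · exact Or.inl ⟨h2, h1, h3⟩

theorem matchOf_perfect {n k : ℕ} (σ : Equiv.Perm (Fin n))
    (h : ∀ a, (σ a : ℕ) % k = (a : ℕ) % k) : (matchOf σ h).IsPerfectMatching := by
  rw [SimpleGraph.Subgraph.isPerfectMatching_iff]
  rintro ⟨a, b⟩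
  cases b with
  | false =>
    refine ⟨(σ a, true), Or.inl ⟨rfl, rfl, rfl⟩, ?_⟩
    rintro ⟨c, d⟩ (⟨h1, h2, h3⟩ | ⟨h1, h2, h3⟩)
    · simp only at h2 h3
      subst h2; subst h3; rfl
    · simp at h1
  | true =>
    refine ⟨(σ.symm a, false), Or.inr ⟨rfl, rfl, by simp⟩, ?_⟩
    rintro ⟨c, d⟩ (⟨h1, h2, h3⟩ | ⟨h1, h2, h3⟩)
    · simp at h1
    · simp only at h2 h3
      subst h2; subst h3; simp

theorem forcing_lower {n k : ℕ} (hk : 1 ≤ k) (S : Set (Sym2 (Fin n × Bool)))
    (hS : IsForcing (matchOf (k := k) (Equiv.refl (Fin n)) (fun _ => rfl)) S) :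
    n ≤ S.ncard + k := by
  classical
  by_contra hcon
  push Not at hcon
  let e : Fin n → Sym2 (Fin n × Bool) := fun i => s((i, false), (i, true))
  have hinj : Function.Injective e := by
    intro i j hij
    simp only [e, Sym2.eq_iff, Prod.mk.injEq] at hij
    rcases hij with ⟨⟨h, -⟩, -⟩ | ⟨⟨h, -⟩, -⟩ <;> exact h
  let T : Finset (Fin n) := univ.filter fun i => e i ∉ S
  have hT : n ≤ T.card + S.ncard := by
    have h1 : T.card + (univ.filter fun i => ¬ e i ∉ S).card = n := by
      have := card_filter_add_card_filter_not (s := (univ : Finset (Fin n))) (fun i => e i ∉ S)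
      rwa [card_univ, Fintype.card_fin] at this
    have h2 : (univ.filter fun i => ¬ e i ∉ S).card ≤ S.ncard := by
      rw [← Set.ncard_coe_finset]
      refine Set.ncard_le_ncard_of_injOn e (fun i hi => ?_) (hinj.injOn) (Set.toFinite _)
      have := (mem_filter.1 (mem_coe.1 hi)).2
      exact not_not.1 this
    omega
  obtain ⟨i, hi, j, hj, hij, hmod⟩ := exists_ne_map_eq_of_card_lt_of_maps_to
    (s := T) (t := range k) (f := fun i => (i : ℕ) % k) (by rw [card_range]; omega)
    (fun i _ => mem_coe.2 (mem_range.2 (Nat.mod_lt _ hk)))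
  have hres : ∀ a, (Equiv.swap i j a : ℕ) % k = (a : ℕ) % k := by
    intro a
    rw [Equiv.swap_apply_def]
    split_ifs with h1 h2
    · rw [h1]; exact hmod.symm
    · rw [h2]; exact hmod
    · rfl
  have hM := hS.2 (matchOf (k := k) (Equiv.swap i j) hres) (matchOf_perfect _ _) (by
    intro f hf
    have h1 := hS.1 hf
    induction f with | _ x y =>
    rw [SimpleGraph.Subgraph.mem_edgeSet] at h1 ⊢
    have key : ∀ a : Fin n, e a ∈ S → Equiv.swap i j a = a := by
      intro a ha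
      refine Equiv.swap_apply_of_ne_of_ne ?_ ?_
      · rintro rfl
        exact (mem_filter.1 hi).2 ha
      · rintro rfl
        exact (mem_filter.1 hj).2 ha
    obtain ⟨x1, x2⟩ := x
    obtain ⟨y1, y2⟩ := y
    rcases h1 with ⟨h2, h3, h4⟩ | ⟨h2, h3, h4⟩
    · simp only [Equiv.refl_apply] at h2 h3 h4
      subst h2; subst h3; subst h4
      exact Or.inl ⟨rfl, rfl, key _ hf⟩
    · simp only [Equiv.refl_apply] at h2 h3 h4
      subst h2; subst h3; subst h4
      rw [Sym2.eq_swap] at hf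
      exact Or.inr ⟨rfl, rfl, key _ hf⟩)
  have h3 : (matchOf (k := k) (Equiv.swap i j) hres).Adj (i, false) (j, true) :=
    Or.inl ⟨rfl, rfl, Equiv.swap_apply_left _ _⟩
  rw [hM] at h3
  rcases h3 with ⟨-, -, h⟩ | ⟨h, -, -⟩
  · exact hij h
  · simp at h

/-- the size of a residue class -/
theorem card_class (n k c : ℕ) (hc : c < k) :
    (univ.filter fun i : Fin n => (i : ℕ) % k = c).card = n / k + if c < n % k then 1 else 0 := by
  have h1 := Nat.count_modEq_card (b := n) (r := k) (by omega) c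
  rw [Nat.mod_eq_of_lt hc] at h1
  rw [← h1, Nat.count_eq_card_filter_range]
  refine card_bij (fun (i : Fin n) _ => (i : ℕ)) (fun i hi => ?_) (fun i _ j _ h => Fin.ext h)
    (fun x hx => ?_)
  · refine mem_filter.2 ⟨mem_range.2 i.2, ?_⟩
    have := (mem_filter.1 hi).2
    rw [Nat.ModEq, this, Nat.mod_eq_of_lt hc]
  · obtain ⟨hx1, hx2⟩ := mem_filter.1 hx
    rw [Nat.ModEq, Nat.mod_eq_of_lt hc] at hx2
    exact ⟨⟨x, mem_range.1 hx1⟩, mem_filter.2 ⟨mem_univ _, hx2⟩, rfl⟩

theorem edges_card (n k : ℕ) (hk : 1 ≤ k) :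
    (balanced n k).edgeSet.ncard = ∑ c ∈ range k, (n / k + if c < n % k then 1 else 0) ^ 2 := by
  classical
  let P : Finset (Fin n × Fin n) := univ.filter fun p => (p.1 : ℕ) % k = (p.2 : ℕ) % k
  let f : Fin n × Fin n → Sym2 (Fin n × Bool) := fun p => s((p.1, false), (p.2, true))
  have hinj : Function.Injective f := by
    rintro ⟨a, b⟩ ⟨c, d⟩ h
    simp only [f, Sym2.eq_iff, Prod.mk.injEq] at h
    rcases h with ⟨⟨h1, -⟩, h2, -⟩ | ⟨⟨-, h⟩, -⟩
    · rw [h1, h2]
    · simp at h
  have hE : (balanced n k).edgeSet = ↑(P.image f) := by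
    ext e
    induction e with | _ x y =>
    rw [SimpleGraph.mem_edgeSet, mem_coe, mem_image]
    obtain ⟨x1, x2⟩ := x
    obtain ⟨y1, y2⟩ := y
    constructor
    · rintro ⟨h1, h2⟩
      cases x2 <;> cases y2
      · simp at h2
      · exact ⟨(x1, y1), mem_filter.2 ⟨mem_univ _, h1⟩, rfl⟩
      · exact ⟨(y1, x1), mem_filter.2 ⟨mem_univ _, h1.symm⟩, Sym2.eq_swap⟩
      · simp at h2
    · rintro ⟨⟨a, b⟩, hp, h⟩
      have hp' := (mem_filter.1 hp).2
      simp only [f, Sym2.eq_iff, Prod.mk.injEq] at h hp'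
      rcases h with ⟨⟨rfl, rfl⟩, rfl, rfl⟩ | ⟨⟨rfl, rfl⟩, rfl, rfl⟩
      · exact ⟨hp', by simp⟩
      · exact ⟨hp'.symm, by simp⟩
  rw [hE, Set.ncard_coe_finset, card_image_of_injective _ hinj,
    card_eq_sum_card_fiberwise (f := fun p : Fin n × Fin n => (p.1 : ℕ) % k) (t := range k)
      (fun p _ => mem_coe.2 (mem_range.2 (Nat.mod_lt _ hk)))]
  refine sum_congr rfl fun c hc => ?_
  rw [← card_class n k c (mem_range.1 hc), sq, ← card_product]
  congr 1
  ext ⟨a, b⟩
  simp only [P, mem_filter, mem_univ, true_and, mem_product]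
  omega

theorem edges_formula (n k : ℕ) (hk : 1 ≤ k) (t : ℕ) (ht : t = n / k) :
    (balanced n k).edgeSet.ncard + k * (t * (t + 1)) = n * (2 * t + 1) := by
  rw [edges_card n k hk, ← ht]
  have h1 : ∀ c ∈ range k, (t + if c < n % k then 1 else 0) ^ 2 + t * (t + 1) =
      (2 * t + 1) * (t + if c < n % k then 1 else 0) := by
    intro c _
    split_ifs <;> ring
  have h2 := sum_congr rfl h1
  rw [sum_add_distrib, sum_const, card_range, smul_eq_mul, ← mul_sum, sum_add_distrib, sum_const,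
    card_range, smul_eq_mul, sum_ite, sum_const_zero, add_zero, sum_const, smul_eq_mul, mul_one]
    at h2
  have h3 : ((range k).filter fun c => c < n % k).card = n % k := by
    have : ((range k).filter fun c => c < n % k) = range (n % k) := by
      ext c
      simp only [mem_filter, mem_range]
      have := Nat.mod_lt n hk
      omega
    rw [this, card_range]
  rw [h2, h3, ht, mul_comm]
  congr 1
  exact Nat.div_add_mod n k

theorem balanced_maxForcing (n k : ℕ) (hk : 1 ≤ k) (hkn : k ≤ n) :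
    maxForcing (balanced n k) = n - k := by
  have hcard : Fintype.card (Fin n × Bool) = 2 * n := by simp [mul_comm]
  have hp := matchOf_perfect (k := k) (Equiv.refl (Fin n)) (fun _ => rfl)
  obtain ⟨h1, S, hS, h2⟩ := le_maxForcing (balanced n k) n hcard _ hp
  have h3 := forcing_lower hk S hS
  obtain ⟨h4, h5⟩ := bound (balanced n k) n (by omega) hcard ⟨_, hp⟩
  have h6 := h5 (n / k)
  have h7 := edges_formula n k hk _ rfl
  have h8 : 1 ≤ n / k := Nat.div_pos hkn hk
  have h9 : k * ((n / k) * (n / k + 1)) ≤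
      (n - maxForcing (balanced n k)) * ((n / k) * (n / k + 1)) := by omega
  have h10 := Nat.le_of_mul_le_mul_right h9 (by positivity)
  omega

end Pool.Agent.KS6_42.FE
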