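import Mathlib

/-!
# Forcing numbers of perfect matchings: definitions
-/

set_option autoImplicit false

namespace Pool.Agent.KS6_42.FE

/-- `S` is a forcing set of the perfect matching `M` of `G`: `S` is a subset of `M`, and `M` is the
only perfect matching of `G` that contains `S`. -/
def IsForcing {V : Type} {G : SimpleGraph V} (M : G.Subgraph) (S : Set (Sym2 V)) : Prop :=
  S ⊆ M.edgeSet ∧ ∀ M' : G.Subgraph, M'.IsPerfectMatching → S ⊆ M'.edgeSet → M' = M

/-- The forcing number `f(G, M)`: the minimum size of a forcing set of `M`. -/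
noncomputable def forcingNum {V : Type} {G : SimpleGraph V} (M : G.Subgraph) : ℕ :=
  sInf {k | ∃ S, IsForcing M S ∧ S.ncard = k}

/-- The maximum forcing number `F(G)`: the maximum of `f(G, M)` over the perfect matchings. -/
noncomputable def maxForcing {V : Type} (G : SimpleGraph V) : ℕ :=
  sSup {k | ∃ M : G.Subgraph, M.IsPerfectMatching ∧ forcingNum M = k}

/-- The disjoint union of `k` balanced complete bipartite graphs: the vertices are `(i, false)` and
`(i, true)` for `0 ≤ i < n`, and `(i, false)` is adjacent to `(j, true)` if `i` and `j` are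
congruent modulo `k`. (For `1 ≤ k ≤ n` the components are `k` graphs `K_{a,a}` with
`a = ⌊n/k⌋` or `a = ⌈n/k⌉`.) -/
def balanced (n k : ℕ) : SimpleGraph (Fin n × Bool) where
  Adj x y := (x.1 : ℕ) % k = (y.1 : ℕ) % k ∧ x.2 ≠ y.2
  symm := ⟨fun _ _ h => ⟨h.1.symm, h.2.symm⟩⟩
  loopless := ⟨fun _ h => h.2 rfl⟩

end Pool.Agent.KS6_42.FE
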