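import Pool.Agent.KS6_42.FE.Bound

/-!
# The exact minimum number of edges
-/

set_option autoImplicit false

namespace Pool.Agent.KS6_42.FE

open Finset

theorem main {V : Type} [Fintype V] [DecidableEq V] (G : SimpleGraph V) [DecidableRel G.Adj] (n : ℕ)
    (hn : Fintype.card V = 2 * n) (M : G.Subgraph) (hM : M.IsPerfectMatching) :
    ∃ (a : ℕ) (S : Set (Sym2 V)), IsForcing M S ∧ S.ncard + a ≤ n ∧
      (1 ≤ n → 1 ≤ a) ∧
      ∀ t : ℕ, (n : ℚ) * (2 * t + 1) ≤ G.edgeFinset.card + a * (t * (t + 1)) := by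
  choose m hm hmu using SimpleGraph.Subgraph.isPerfectMatching_iff.1 hM
  have hmm : ∀ v, m (m v) = v := fun v => (hmu (m v) v (hm v).symm).symm
  have hmG : ∀ v, G.Adj v (m v) := fun v => M.adj_sub (hm v)
  let key : V → ℕ ×ₗ Fin (Fintype.card V) := fun v => toLex (G.degree v, Fintype.equivFin V v)
  have hkey : Function.Injective key := fun a b h =>
    (Fintype.equivFin V).injective (congrArg (fun x => (ofLex x).2) h)
  let U : Finset V := univ.filter fun v => key v < key (m v)
  have hU : ∀ v, v ∈ U ↔ m v ∉ U := by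
    intro v
    simp only [U, mem_filter, mem_univ, true_and, hmm, not_lt]
    exact ⟨le_of_lt, fun h => lt_of_le_of_ne h (hkey.ne (hmG v).ne)⟩
  have hsum : ∀ f : V → ℕ, ∑ v, f v = ∑ v ∈ U, (f v + f (m v)) := by
    intro f
    rw [← sum_add_sum_compl U, sum_add_distrib]
    congr 1
    refine sum_nbij' m m (fun v hv => ?_) (fun v hv => ?_) (fun v _ => hmm v) (fun v _ => hmm v)
      (fun v _ => by rw [hmm])
    · rw [hU, hmm]; exact mem_compl.1 hv
    · exact mem_compl.2 ((hU v).1 hv)
  have hUc : U.card = n := by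
    have := hsum fun _ => 1
    simp at this
    omega
  have hdeg : ∑ v ∈ U, G.degree v ≤ G.edgeFinset.card := by
    have h1 := hsum fun v => G.degree v
    rw [G.sum_degrees_eq_twice_card_edges, sum_add_distrib] at h1
    have h2 : ∑ v ∈ U, G.degree v ≤ ∑ v ∈ U, G.degree (m v) := by
      refine sum_le_sum fun v hv => ?_
      have := (mem_filter.1 hv).2
      rcases Prod.Lex.toLex_lt_toLex.1 this with h | h
      · exact h.le
      · exact h.1.le
    omega
  let rep : V → V := fun w => if w ∈ U then w else m w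
  let out : V → Finset V := fun v => (((G.neighborFinset v).erase (m v)).image rep).erase v
  obtain ⟨A, hA, h1, h2⟩ := caroWei out (fun v => notMem_erase _ _) U
  have hout : ∀ v, 1 + (out v ∩ U).card ≤ G.degree v := by
    intro v
    have a1 : (out v ∩ U).card ≤ ((G.neighborFinset v).erase (m v)).card :=
      (card_le_card inter_subset_left).trans ((card_erase_le).trans card_image_le)
    have a2 := card_erase_add_one ((G.mem_neighborFinset v _).2 (hmG v))
    rw [G.card_neighborFinset_eq_degree] at a2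
    omega
  have hApos : 1 ≤ n → 1 ≤ A.card := by
    intro hn1
    have h3 : (0 : ℚ) < ∑ v ∈ U, 1 / (1 + ((out v ∩ U).card : ℚ)) :=
      sum_pos (fun _ _ => one_div_pos.2 (add_pos_of_pos_of_nonneg one_pos (Nat.cast_nonneg _)))
        (card_pos.1 (by omega))
    have h4 : (0 : ℚ) < A.card := lt_of_lt_of_le h3 h2
    exact_mod_cast h4
  have hF : IsForcing M (((U \ A).image fun v => s(v, m v) : Finset _) : Set (Sym2 V)) := by
    constructor
    · intro e he
      obtain ⟨v, -, rfl⟩ := mem_image.1 (mem_coe.1 he)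
      exact hm v
    · intro M' hM' hS
      choose m' hm' hmu' using SimpleGraph.Subgraph.isPerfectMatching_iff.1 hM'
      have hmm' : ∀ v, m' (m' v) = v := fun v => (hmu' (m' v) v (hm' v).symm).symm
      have hout' : ∀ v ∈ U, v ∉ A → m' v = m v := by
        intro v hv hvA
        have : s(v, m v) ∈ M'.edgeSet :=
          hS (mem_coe.2 (mem_image.2 ⟨v, mem_sdiff.2 ⟨hv, hvA⟩, rfl⟩))
        exact (hmu' v _ this).symm
      have hall : ∀ v ∈ U, m' v = m v := by
        by_contra hcon
        push Not at hcon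
        obtain ⟨v0, hv0, hv0'⟩ := hcon
        have hB : ∀ v ∈ U, m' v ≠ m v → v ∈ A := fun v hv h => by_contra fun h' => h (hout' v hv h')
        obtain ⟨v, hv, h3⟩ := h1 (A.filter fun v => m' v ≠ m v) (filter_subset _ _)
          ⟨v0, mem_filter.2 ⟨hB v0 hv0 hv0', hv0'⟩⟩
        obtain ⟨hvA, hvm⟩ := mem_filter.1 hv
        have hadj : G.Adj v (m' v) := M'.adj_sub (hm' v)
        have hr : rep (m' v) ∈ U ∧ m' (rep (m' v)) ≠ m (rep (m' v)) ∧ rep (m' v) ≠ v := by
          by_cases hw : m' v ∈ U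
          · simp only [rep, if_pos hw, hmm']
            exact ⟨hw, fun h => hvm (by rw [← hmm (m' v), ← h]), hadj.ne'⟩
          · simp only [rep, if_neg hw, hmm]
            refine ⟨by rw [hU, hmm]; exact hw, fun h => hvm ?_, fun h => hvm (by rw [← hmm (m' v), h])⟩
            have := congrArg m' h
            rw [hmm', hmm'] at this
            rw [← hmm (m' v), this]
        exact h3 _ (mem_filter.2 ⟨hB _ hr.1 hr.2.1, hr.2.1⟩) (mem_erase.2 ⟨hr.2.2,
          mem_image_of_mem _ (mem_erase.2 ⟨hvm, (G.mem_neighborFinset _ _).2 hadj⟩)⟩)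
      have hall' : ∀ v, m' v = m v := by
        intro v
        by_cases hv : v ∈ U
        · exact hall v hv
        · have := hall (m v) (by rw [hU, hmm]; exact hv)
          rw [hmm] at this
          rw [← this, hmm', this]
      ext v w
      · simp [hM.2.verts_eq_univ, hM'.2.verts_eq_univ]
      · exact ⟨fun h => by rw [hmu' v w h, hall']; exact hm v,
          fun h => by rw [hmu v w h, ← hall']; exact hm' v⟩
  refine ⟨A.card, _, hF, ?_, hApos, fun t => ?_⟩
  · rw [Set.ncard_coe_finset]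
    have h4 := card_image_le (s := U \ A) (f := fun v => s(v, m v))
    have h5 := card_sdiff_add_card_eq_card hA
    omega
  · have h3 : ∀ v ∈ U, ((2 * t + 1 : ℚ) - ((1 + (out v ∩ U).card : ℕ) : ℚ)) ≤
        (t * (t + 1)) * (1 / (1 + ((out v ∩ U).card : ℚ))) := by
      intro v _
      have := chord t (1 + (out v ∩ U).card) (by omega)
      push_cast at this ⊢
      exact this
    have h4 := sum_le_sum h3
    rw [← mul_sum, sum_sub_distrib, sum_const, hUc, nsmul_eq_mul] at h4
    have h5 : ∑ v ∈ U, ((1 + (out v ∩ U).card : ℕ) : ℚ) ≤ G.edgeFinset.card := by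
      rw [← Nat.cast_sum]
      exact_mod_cast (sum_le_sum fun v _ => hout v).trans hdeg
    have h6 : ((t : ℚ) * (t + 1)) * ∑ v ∈ U, 1 / (1 + ((out v ∩ U).card : ℚ)) ≤
        (t * (t + 1)) * A.card := mul_le_mul_of_nonneg_left h2 (by positivity)
    linarith

/-- The general lower bound. -/
theorem bound {V : Type} [Fintype V] (G : SimpleGraph V) (n : ℕ) (hn1 : 1 ≤ n)
    (hn : Fintype.card V = 2 * n) (hG : ∃ M : G.Subgraph, M.IsPerfectMatching) :
    maxForcing G < n ∧ ∀ t : ℕ, n * (2 * t + 1) ≤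
      G.edgeSet.ncard + (n - maxForcing G) * (t * (t + 1)) := by
  classical
  have hb : ∀ M : G.Subgraph, M.IsPerfectMatching → forcingNum M ≤ n := by
    intro M hM
    obtain ⟨a, S, hS, h1, -⟩ := main G n hn M hM
    have h3 : forcingNum M ≤ S.ncard := Nat.sInf_le ⟨_, hS, rfl⟩
    omega
  obtain ⟨M, hM, hF⟩ : maxForcing G ∈ {k | ∃ M : G.Subgraph, M.IsPerfectMatching ∧ forcingNum M = k} := by
    refine Nat.sSup_mem ⟨_, hG.choose, hG.choose_spec, rfl⟩ ⟨n, ?_⟩
    rintro _ ⟨M, hM, rfl⟩
    exact hb M hM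
  obtain ⟨a, S, hS, h1, h2, h3⟩ := main G n hn M hM
  have h4 : forcingNum M ≤ S.ncard := Nat.sInf_le ⟨_, hS, rfl⟩
  rw [hF] at h4
  have h2' := h2 hn1
  refine ⟨by omega, fun t => ?_⟩
  rw [← G.coe_edgeFinset, Set.ncard_coe_finset]
  have h5 : a ≤ n - maxForcing G := by omega
  have h6 : n * (2 * t + 1) ≤ G.edgeFinset.card + a * (t * (t + 1)) := by exact_mod_cast h3 t
  exact h6.trans (Nat.add_le_add_left (Nat.mul_le_mul_right _ h5) _)

/-- `le_maxForcing`. -/
theorem le_maxForcing {V : Type} [Fintype V] (G : SimpleGraph V) (n : ℕ)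
    (hn : Fintype.card V = 2 * n) (M : G.Subgraph) (hM : M.IsPerfectMatching) :
    forcingNum M ≤ maxForcing G ∧ ∃ S, IsForcing M S ∧ S.ncard = forcingNum M := by
  classical
  constructor
  · refine le_csSup ⟨n, ?_⟩ ⟨M, hM, rfl⟩
    rintro _ ⟨M, hM, rfl⟩
    obtain ⟨a, S, hS, h1, -⟩ := main G n hn M hM
    have h3 : forcingNum M ≤ S.ncard := Nat.sInf_le ⟨_, hS, rfl⟩
    omega
  · obtain ⟨a, S, hS, h1, -⟩ := main G n hn M hM
    exact Nat.sInf_mem (s := {k | ∃ S, IsForcing M S ∧ S.ncard = k}) ⟨_, S, hS, rfl⟩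

end Pool.Agent.KS6_42.FE
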